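import Pool.Agent.W394.BQN.Stm

/-! Project BQN, part LIFT0: matrices of determinant one lift along surjections. -/

set_option autoImplicit false

namespace Pool.Agent.W403.BQN

open BQ BQ.N Pool.Agent.W394.BQN Matrix

section

variable {A R : Type} [CommRing A] [CommRing R] {q : A →+* R}

theorem lift_det {s : ℕ} {M : Matrix (Fin s) (Fin s) R} (h : Lift q M) : M.det = 1 := by
  obtain ⟨Δ, h1, rfl⟩ := h
  rw [← RingHom.mapMatrix_apply, ← RingHom.map_det, h1, map_one]

theorem lift_adj {s : ℕ} {E : Matrix (Fin s) (Fin s) R} (h : Lift q E) : Lift q E.adjugate := by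
  obtain ⟨Δ, h1, rfl⟩ := h
  refine ⟨Δ.adjugate, ?_, ?_⟩
  · rw [det_adjugate, h1, one_pow]
  · rw [← RingHom.mapMatrix_apply, ← RingHom.mapMatrix_apply, RingHom.map_adjugate]

theorem cancel_right {s : ℕ} {M E : Matrix (Fin s) (Fin s) R} (hE : Lift q E)
    (h : Lift q (M * E)) : Lift q M := by
  have := h.mul (lift_adj hE)
  rwa [Matrix.mul_assoc, Matrix.mul_adjugate, lift_det hE, one_smul, Matrix.mul_one] at this

theorem cancel_left {s : ℕ} {M E : Matrix (Fin s) (Fin s) R} (hE : Lift q E)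
    (h : Lift q (E * M)) : Lift q M := by
  have := (lift_adj hE).mul h
  rwa [← Matrix.mul_assoc, Matrix.adjugate_mul, lift_det hE, one_smul, Matrix.one_mul] at this

theorem vecMul_trans {s : ℕ} (w : Fin s → R) (i j : Fin s) (c : R) (k : Fin s) :
    (w ᵥ* transvection i j c) k = w k + if j = k then w i * c else 0 := by
  unfold transvection
  rw [vecMul_add, vecMul_one, Pi.add_apply]
  congr 1
  have e : (w ᵥ* Matrix.single i j c) k = ∑ b, w b * Matrix.single i j c b k := rfl
  rw [e, Finset.sum_eq_single i]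
  · rw [single_apply]
    by_cases h : j = k
    · simp [h]
    · simp [h]
  · intro b _ hb
    rw [single_apply, if_neg, mul_zero]
    intro h
    exact hb h.1.symm
  · intro h
    exact absurd (Finset.mem_univ i) h

theorem emb2 (hq : Function.Surjective q) {s : ℕ} {i j : Fin s} (hij : i ≠ j)
    {T : Matrix (Fin 2) (Fin 2) R} (hT : T ∈ E2 R) :
    ∃ S : Matrix (Fin s) (Fin s) R, Lift q S ∧ ∀ w : Fin s → R,
      (w ᵥ* S) i = w i * T 0 0 + w j * T 1 0 ∧ (w ᵥ* S) j = w i * T 0 1 + w j * T 1 1 ∧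
      ∀ k, k ≠ i → k ≠ j → (w ᵥ* S) k = w k := by
  unfold E2 at hT
  induction hT using Submonoid.closure_induction with
  | mem T hT =>
    rcases hT with ⟨c, rfl⟩ | ⟨c, rfl⟩
    · refine ⟨transvection i j c, Lift.transvection hq i j hij c, fun w => ⟨?_, ?_, ?_⟩⟩
      · rw [vecMul_trans, if_neg hij.symm]
        simp
      · rw [vecMul_trans, if_pos rfl]
        simp [add_comm]
      · intro k _ hkj
        rw [vecMul_trans, if_neg (Ne.symm hkj), add_zero]
    · refine ⟨transvection j i c, Lift.transvection hq j i hij.symm c, fun w => ⟨?_, ?_, ?_⟩⟩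
      · rw [vecMul_trans, if_pos rfl]
        simp
      · rw [vecMul_trans, if_neg hij]
        simp
      · intro k hki _
        rw [vecMul_trans, if_neg (Ne.symm hki), add_zero]
  | one =>
    refine ⟨1, Lift.one q, fun w => ⟨?_, ?_, ?_⟩⟩
    · simp
    · simp
    · intro k _ _
      simp
  | mul T1 T2 _ _ ih1 ih2 =>
    obtain ⟨S1, h1, w1⟩ := ih1
    obtain ⟨S2, h2, w2⟩ := ih2
    refine ⟨S1 * S2, h1.mul h2, fun w => ?_⟩
    obtain ⟨a1, a2, a3⟩ := w1 w
    obtain ⟨b1, b2, b3⟩ := w2 (w ᵥ* S1)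
    rw [← vecMul_vecMul]
    refine ⟨?_, ?_, ?_⟩
    · rw [b1, a1, a2, Matrix.mul_apply, Matrix.mul_apply, Fin.sum_univ_two, Fin.sum_univ_two]
      ring
    · rw [b2, a1, a2, Matrix.mul_apply, Matrix.mul_apply, Fin.sum_univ_two, Fin.sum_univ_two]
      ring
    · intro k hki hkj
      rw [b3 k hki hkj, a3 k hki hkj]

theorem pair_red [IsDomain R] [IsPrincipalIdealRing R] (hR : E2T R) (a b : R) :
    ∃ T ∈ E2 R, a * T 0 1 + b * T 1 1 = 0 := by
  by_cases h0 : a = 0 ∧ b = 0
  · exact ⟨1, one_mem _, by simp [h0.1, h0.2]⟩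
  · obtain ⟨g, hg⟩ := (IsPrincipalIdealRing.principal (Ideal.span {a, b})).principal
    have ha : a ∈ Ideal.span {g} := by
      have h1 : a ∈ Ideal.span {a, b} := Ideal.subset_span (by simp)
      rw [hg] at h1
      exact h1
    have hb : b ∈ Ideal.span {g} := by
      have h1 : b ∈ Ideal.span {a, b} := Ideal.subset_span (by simp)
      rw [hg] at h1
      exact h1
    have hgm : g ∈ Ideal.span {a, b} := by
      rw [hg]
      exact Submodule.mem_span_singleton_self g
    rw [Ideal.mem_span_singleton'] at ha hb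
    rw [Ideal.mem_span_pair] at hgm
    obtain ⟨a', ha'⟩ := ha
    obtain ⟨b', hb'⟩ := hb
    obtain ⟨x, y, hxy⟩ := hgm
    have hg0 : g ≠ 0 := by
      intro h
      apply h0
      rw [h, mul_zero] at ha' hb'
      exact ⟨ha'.symm, hb'.symm⟩
    have hco : IsCoprime a' b' := by
      refine ⟨x, y, mul_right_cancel₀ hg0 ?_⟩
      rw [one_mul]
      linear_combination hxy + x * ha' + y * hb'
    obtain ⟨T, hT, -, h2⟩ := hR a' b' hco
    exact ⟨T, hT, by linear_combination g * h2 - T 0 1 * ha' - T 1 1 * hb'⟩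

theorem row_red [IsDomain R] [IsPrincipalIdealRing R] (hR : E2T R) (hq : Function.Surjective q)
    {n : ℕ} (v : Fin (n + 1) → R) (m : ℕ) :
    ∃ S, Lift q S ∧ ∀ k : Fin (n + 1), 0 < k.val → k.val ≤ m → (v ᵥ* S) k = 0 := by
  induction m with
  | zero => exact ⟨1, Lift.one q, fun k h1 h2 => by omega⟩
  | succ m ih =>
    obtain ⟨S, hS, h⟩ := ih
    by_cases hm : m + 1 < n + 1
    · have h0j : (0 : Fin (n + 1)) ≠ ⟨m + 1, hm⟩ := by
        intro h
        have := congrArg Fin.val h
        simp at this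
      obtain ⟨T, hT, hT2⟩ := pair_red hR ((v ᵥ* S) 0) ((v ᵥ* S) ⟨m + 1, hm⟩)
      obtain ⟨S', hS', hw⟩ := emb2 hq h0j hT
      obtain ⟨w1, w2, w3⟩ := hw (v ᵥ* S)
      refine ⟨S * S', hS.mul hS', fun k hk1 hk2 => ?_⟩
      rw [← Matrix.vecMul_vecMul]
      by_cases hkj : k = ⟨m + 1, hm⟩
      · rw [hkj, w2, hT2]
      · rw [w3 k (by intro h; rw [h] at hk1; simp at hk1) hkj]
        exact h k hk1 (by
          have : k.val ≠ m + 1 := fun h => hkj (Fin.ext h)
          omega)
    · exact ⟨S, hS, fun k h1 h2 => h k h1 (by have := k.2; omega)⟩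

theorem det_row {n : ℕ} (M : Matrix (Fin (n + 1)) (Fin (n + 1)) R)
    (h : ∀ k : Fin n, M 0 k.succ = 0) :
    M.det = M 0 0 * (M.submatrix Fin.succ Fin.succ).det := by
  rw [det_succ_row_zero, Fin.sum_univ_succ, Finset.sum_eq_zero]
  · simp only [Fin.val_zero, pow_zero, one_mul, add_zero, Fin.succAbove_zero]
  · intro k _
    rw [h k]
    simp

theorem row_one [IsDomain R] [IsPrincipalIdealRing R] (hR : E2T R) (hq : Function.Surjective q)
    {n : ℕ} (M : Matrix (Fin (n + 2)) (Fin (n + 2)) R) (hM : M.det = 1) :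
    ∃ S : Matrix (Fin (n + 2)) (Fin (n + 2)) R, Lift q S ∧ (M * S) 0 0 = 1 ∧
      ∀ k : Fin (n + 1), (M * S) 0 k.succ = 0 := by
  obtain ⟨S, hS, h⟩ := row_red hR hq (M 0) (n + 1)
  have h1 : ∀ k : Fin (n + 1), (M * S) 0 k.succ = 0 := by
    intro k
    rw [mul_apply_eq_vecMul]
    apply h
    · simp
    · have := k.2
      simp only [Fin.val_succ]
      omega
  have hdet : (M * S).det = 1 := by
    rw [det_mul, hM, lift_det hS, one_mul]
  rw [det_row _ h1] at hdet
  have hco : IsCoprime ((M * S) 0 0) 0 := by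
    refine ⟨((M * S).submatrix Fin.succ Fin.succ).det, 0, ?_⟩
    rw [mul_comm, mul_zero, add_zero]
    exact hdet
  obtain ⟨T, hT, t1, t2⟩ := hR _ _ hco
  have h01 : (0 : Fin (n + 2)) ≠ 1 := by
    intro h
    have := congrArg Fin.val h
    simp at this
  obtain ⟨S', hS', hw⟩ := emb2 hq h01 hT
  obtain ⟨w1, w2, w3⟩ := hw ((M * S) 0)
  have h11 : (M * S) 0 1 = 0 := h1 0
  rw [h11] at w1 w2
  rw [t1] at w1
  rw [t2] at w2
  refine ⟨S * S', hS.mul hS', ?_, ?_⟩
  · rw [← Matrix.mul_assoc, mul_apply_eq_vecMul]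
    exact w1
  · intro k
    rw [← Matrix.mul_assoc, mul_apply_eq_vecMul]
    by_cases hk : k.succ = 1
    · rw [hk]
      exact w2
    · rw [w3 _ (Fin.succ_ne_zero k) hk]
      exact h1 k

theorem col_red (hq : Function.Surjective q) {n : ℕ} (M : Matrix (Fin (n + 1)) (Fin (n + 1)) R)
    (h00 : M 0 0 = 1) (m : ℕ) :
    ∃ S : Matrix (Fin (n + 1)) (Fin (n + 1)) R, Lift q S ∧ (∀ j, (S * M) 0 j = M 0 j) ∧
      ∀ k : Fin (n + 1), 0 < k.val → k.val ≤ m → (S * M) k 0 = 0 := by
  induction m with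
  | zero => exact ⟨1, Lift.one q, fun j => by simp, fun k h1 h2 => by omega⟩
  | succ m ih =>
    obtain ⟨S, hS, h0, h⟩ := ih
    by_cases hm : m + 1 < n + 1
    · have h0j : (⟨m + 1, hm⟩ : Fin (n + 1)) ≠ 0 := by
        intro h
        have := congrArg Fin.val h
        simp at this
      refine ⟨transvection ⟨m + 1, hm⟩ 0 (-(S * M) ⟨m + 1, hm⟩ 0) * S,
        (Lift.transvection hq _ _ h0j _).mul hS, ?_, ?_⟩
      · intro j
        rw [Matrix.mul_assoc, transvection_mul_apply_of_ne _ _ _ _ h0j.symm]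
        exact h0 j
      · intro k hk1 hk2
        by_cases hkj : k = ⟨m + 1, hm⟩
        · rw [hkj, Matrix.mul_assoc, transvection_mul_apply_same, h0, h00]
          ring
        · rw [Matrix.mul_assoc, transvection_mul_apply_of_ne _ _ _ _ hkj]
          exact h k hk1 (by
            have : k.val ≠ m + 1 := fun h => hkj (Fin.ext h)
            omega)
    · exact ⟨S, hS, h0, fun k h1 h2 => h k h1 (by have := k.2; omega)⟩

/-- the block matrix `diag(1, M)` -/
def emb {B : Type} [CommRing B] {n : ℕ} (M : Matrix (Fin n) (Fin n) B) :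
    Matrix (Fin (n + 1)) (Fin (n + 1)) B :=
  Matrix.of fun i j => Fin.cases (Fin.cases 1 (fun _ => 0) j)
    (fun i' => Fin.cases 0 (fun j' => M i' j') j) i

theorem det_emb {B : Type} [CommRing B] {n : ℕ} (M : Matrix (Fin n) (Fin n) B) :
    (emb M).det = M.det := by
  rw [det_row (emb M) (fun k => rfl)]
  have h1 : (emb M) 0 0 = 1 := rfl
  have h2 : (emb M).submatrix Fin.succ Fin.succ = M := rfl
  rw [h1, h2, one_mul]

theorem lift_emb {n : ℕ} {M : Matrix (Fin n) (Fin n) R} (h : Lift q M) : Lift q (emb M) := by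
  obtain ⟨Δ, h1, rfl⟩ := h
  refine ⟨emb Δ, by rw [det_emb, h1], ?_⟩
  ext i j
  refine Fin.cases ?_ (fun i' => ?_) i
  · refine Fin.cases ?_ (fun j' => ?_) j
    · show q 1 = 1
      exact map_one q
    · show q 0 = 0
      exact map_zero q
  · refine Fin.cases ?_ (fun j' => ?_) j
    · show q 0 = 0
      exact map_zero q
    · rfl

end

theorem t_LIFT0 : S_LIFT0 := by
  intro R _ _ _ hR A _ q hq s
  show ∀ M : Matrix (Fin s) (Fin s) R, M.det = 1 → Lift q M
  induction s with
  | zero =>
    intro M _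
    have : M = 1 := by
      ext i
      exact i.elim0
    rw [this]
    exact Lift.one q
  | succ s ih =>
    intro M hM
    cases s with
    | zero =>
      have : M = 1 := by
        ext i j
        rw [det_fin_one] at hM
        have hi : i = 0 := Fin.eq_zero i
        have hj : j = 0 := Fin.eq_zero j
        rw [hi, hj, hM]
        simp
      rw [this]
      exact Lift.one q
    | succ n =>
      obtain ⟨S, hS, h1, h2⟩ := row_one hR hq M hM
      apply cancel_right hS
      obtain ⟨S', hS', h3, h4⟩ := col_red hq (M * S) h1 (n + 1)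
      apply cancel_left hS'
      have e : S' * (M * S) = emb ((S' * (M * S)).submatrix Fin.succ Fin.succ) := by
        ext i j
        refine Fin.cases ?_ (fun i' => ?_) i
        · refine Fin.cases ?_ (fun j' => ?_) j
          · rw [h3, h1]
            rfl
          · rw [h3, h2]
            rfl
        · refine Fin.cases ?_ (fun j' => ?_) j
          · rw [h4 _ (by simp) (by have := i'.2; simp only [Fin.val_succ]; omega)]
            rfl
          · rfl
      rw [e]
      apply lift_emb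
      apply ih
      rw [← det_emb, ← e, det_mul, det_mul, lift_det hS', hM, lift_det hS]
      simp

end Pool.Agent.W403.BQN
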